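import Pool.Agent.H748R3.HUR.Stmts

set_option autoImplicit false

namespace Pool.Agent.H748R3.HUR.Borel

open Filter

theorem borel_aux {X : Type} [TopologicalSpace X] (S : ℕ → ℕ → Set X)
    (hS : ∀ k h, IsClosed (S k h)) :
    @MeasurableSet X (borel X) {x | ∃ m, ∀ k, m ≤ k → ∃ N, ∀ h, N ≤ h → x ∈ S k h} := by
  letI : MeasurableSpace X := borel X
  haveI : BorelSpace X := ⟨rfl⟩
  have e : {x | ∃ m, ∀ k, m ≤ k → ∃ N, ∀ h, N ≤ h → x ∈ S k h} =
      ⋃ m : ℕ, ⋂ k : ℕ, ⋂ (_ : m ≤ k), ⋃ N : ℕ, ⋂ h : ℕ, ⋂ (_ : N ≤ h), S k h := by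
    ext x
    simp only [Set.mem_setOf_eq, Set.mem_iUnion, Set.mem_iInter]
  rw [e]
  exact MeasurableSet.iUnion fun m => MeasurableSet.iInter fun k => MeasurableSet.iInter fun _ =>
    MeasurableSet.iUnion fun N => MeasurableSet.iInter fun h => MeasurableSet.iInter fun _ =>
      (hS k h).measurableSet

theorem taskBorel : TaskBorel := by
  have h := borel_aux (X := K) (fun k h => {x : K | x (k, h) = 1})
    (fun k h => isClosed_singleton.preimage (continuous_apply (k, h)))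
  exact h

end Pool.Agent.H748R3.HUR.Borel
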