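import Mathlib

set_option autoImplicit false

/-! Project H748-HUR: under CH the group of all x in 2^(N x N) with almost all columns finite is
generated by a set with the Hurewicz property (MP_88659e_gt, independent of ZFC). -/

namespace Pool.Agent.H748R3.HUR

open Filter

/-- the compact group -/
abbrev K : Type := ℕ × ℕ → ℤˣ

/-- almost all columns are finite -/
def InH (x : K) : Prop := ∃ m, ∀ k, m ≤ k → ∃ N, ∀ h, N ≤ h → x (k, h) = 1

/-- the group Fin x Fin -/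
def HH : Subgroup K where
  carrier := {x | InH x}
  mul_mem' := by
    rintro x y ⟨m, hm⟩ ⟨m', hm'⟩
    refine ⟨max m m', fun k hk => ?_⟩
    obtain ⟨N, hN⟩ := hm k (le_trans (le_max_left _ _) hk)
    obtain ⟨N', hN'⟩ := hm' k (le_trans (le_max_right _ _) hk)
    refine ⟨max N N', fun h hh => ?_⟩
    simp [hN h (le_trans (le_max_left _ _) hh), hN' h (le_trans (le_max_right _ _) hh)]
  one_mem' := ⟨0, fun _ _ => ⟨0, fun _ _ => rfl⟩⟩
  inv_mem' := by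
    rintro x ⟨m, hm⟩
    refine ⟨m, fun k hk => ?_⟩
    obtain ⟨N, hN⟩ := hm k hk
    exact ⟨N, fun h hh => by simp [hN h hh]⟩

/-- data of one level -/
structure Lev where
  V : ℕ → Set K
  l : ℕ → ℕ
  M : ℕ → ℕ
  g : ℕ → ℕ

/-- the n-th window of a level -/
def Win (d : Lev) (n : ℕ) : Set (ℕ × ℕ) :=
  {p | d.l n ≤ p.1 ∧ p.1 < d.M n ∧ d.g p.1 ≤ p.2 ∧ p.2 < d.M n}

/-- the level `d` at stage `a` is correct relative to the levels `D b`, `b < a`. -/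
def LevOK {ι : Type} [LinearOrder ι] (ρ : ι → ι → ℕ) (D : ι → Lev) (a : ι) (d : Lev) : Prop :=
  (∀ n, IsClosed (d.V n)) ∧ (∀ n, n ≤ d.l n) ∧ (∀ n, d.l n < d.M n) ∧
  (∀ n, d.M n ≤ d.l (n + 1)) ∧
  (∀ b < a, ∀ n k, (D b).l n ≤ k → k < (D b).M n → ρ b a ≤ k → (D b).M n ≤ d.g k) ∧
  (∀ n, ∀ x : K, (∀ p ∈ Win d n, x p = 1) →
    (∀ b < a, ∀ m, max n (ρ b a) < m → x ∈ (D b).V m) → x ∈ d.V n ∧ x ∈ d.V (n + 1))

/-- TASK Rho: Todorcevic's rho function on a well-order with countable initial segments. -/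
def TaskRho : Prop :=
  ∀ (ι : Type) [LinearOrder ι] [WellFoundedLT ι], (∀ a : ι, (Set.Iio a).Countable) →
    ∃ ρ : ι → ι → ℕ,
      (∀ a b c, a < b → b < c → ρ a c ≤ max (ρ a b) (ρ b c)) ∧
      (∀ a b c, a < b → b < c → ρ a b ≤ max (ρ a c) (ρ b c)) ∧
      (∀ b n, {a | a < b ∧ ρ a b ≤ n}.Finite)

/-- TASK Rec: recursion along a well-order with an invariant. -/
def TaskRec : Prop :=
  ∀ (ι T : Type) [LinearOrder ι] [WellFoundedLT ι] [Nonempty T]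
    (Q : ι → (ι → T) → T → Prop),
    (∀ a F F' d, (∀ b < a, F b = F' b) → Q a F d → Q a F' d) →
    (∀ a F, (∀ b < a, Q b F (F b)) → ∃ d, Q a F d) →
    ∃ F : ι → T, ∀ a, Q a F (F a)

/-- TASK Level: construction of a new level (compactness). -/
def TaskLevel : Prop :=
  ∀ (ι : Type) [LinearOrder ι] (ρ : ι → ι → ℕ) (a : ι) (D : ι → Lev) (U : ℕ → ℕ → Set K),
    (∀ n, {b | b < a ∧ ρ b a ≤ n}.Finite) →
    (∀ b < a, (∀ n, IsClosed ((D b).V n)) ∧ (∀ n, n ≤ (D b).l n) ∧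
      (∀ n, (D b).l n < (D b).M n) ∧ (∀ n, (D b).M n ≤ (D b).l (n + 1))) →
    (∀ n j, IsClopen (U n j)) → (∀ n, Monotone (U n)) →
    (∀ x, InH x → (∀ b < a, ∀ᶠ m in atTop, x ∈ (D b).V m) → ∀ n, ∃ j, x ∈ U n j) →
    ∃ d : Lev, LevOK ρ D a d ∧ ∃ f : ℕ → ℕ, ∀ n, d.V n = U n (f n)

/-- TASK Split: every element of Fin x Fin is a product of two elements obeying all levels. -/
def TaskSplit : Prop :=
  ∀ (ι : Type) [LinearOrder ι] [WellFoundedLT ι] (ρ : ι → ι → ℕ),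
    (∀ a b c, a < b → b < c → ρ a c ≤ max (ρ a b) (ρ b c)) →
    (∀ a b c, a < b → b < c → ρ a b ≤ max (ρ a c) (ρ b c)) →
    ∀ (a : ι) (D : ι → Lev), (∀ b < a, LevOK ρ D b (D b)) → ∀ z : K, InH z →
      ∃ x y : K, InH x ∧ InH y ∧ x * y = z ∧
        ∀ b < a, ∀ m, ρ b a < m → x ∈ (D b).V m ∧ y ∈ (D b).V m

/-- TASK Hur: the clopen form of the Hurewicz property gives the form with open covers. -/
def TaskHur : Prop :=
  ∀ X : Set K,
    (∀ U : ℕ → ℕ → Set K, (∀ n j, IsClopen (U n j)) → (∀ n, Monotone (U n)) →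
      (∀ x ∈ X, ∀ n, ∃ j, x ∈ U n j) → ∃ f : ℕ → ℕ, ∀ x ∈ X, ∀ᶠ n in atTop, x ∈ U n (f n)) →
    ∀ U : ℕ → Set (Set K), (∀ n, (∀ u ∈ U n, IsOpen u) ∧ X ⊆ ⋃₀ U n) →
      ∃ F : ℕ → Finset (Set K), (∀ n, (↑(F n) : Set (Set K)) ⊆ U n) ∧
        ∀ x ∈ X, ∀ᶠ n in atTop, x ∈ ⋃₀ ((↑(F n) : Set (Set K)))

/-- TASK Enum: under CH an enumeration in type omega_1 of all pairs (point, clopen double
sequence). -/
def TaskEnum : Prop :=
  Cardinal.aleph.{0} 1 = Cardinal.continuum.{0} →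
    ∃ (ι : Type) (_ : LinearOrder ι) (_ : WellFoundedLT ι), (∀ a : ι, (Set.Iio a).Countable) ∧
      ∃ e : ι → K × (ℕ → ℕ → Set K),
        ∀ p : K × (ℕ → ℕ → Set K), (∀ n j, IsClopen (p.2 n j)) → ∃ a, e a = p

/-- TASK Borel -/
def TaskBorel : Prop := @MeasurableSet K (borel K) ((HH : Subgroup K) : Set K)

/-- TASK NotSigma -/
def TaskNotSigma : Prop := ¬ IsSigmaCompact ((HH : Subgroup K) : Set K)

end Pool.Agent.H748R3.HUR
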