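import Pool.Agent.H748R3.HUR.Stmts

set_option autoImplicit false

namespace Pool.Agent.H748R3.HUR.HurH62

open Filter TopologicalSpace
open Pool.Agent.H748R3.HUR

theorem exists_seq : ∃ B : ℕ → Set K, (∀ i, IsClopen (B i)) ∧
    ∀ (x : K) (u : Set K), IsOpen u → x ∈ u → ∃ i, x ∈ B i ∧ B i ⊆ u := by
  have : Countable (Clopens K) := Clopens.countable_iff_secondCountable.2 inferInstance
  obtain ⟨B, hB⟩ := exists_surjective_nat (Clopens K)
  refine ⟨fun i => (B i : Set K), fun i => (B i).isClopen, ?_⟩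
  intro x u hu hx
  obtain ⟨V, hV, hxV, hVu⟩ := compact_exists_isClopen_in_isOpen hu hx
  obtain ⟨i, hi⟩ := hB ⟨V, hV⟩
  refine ⟨i, ?_, ?_⟩
  · simp only [hi]; exact hxV
  · simp only [hi]; exact hVu

theorem taskHur : TaskHur := by
  classical
  intro X hX U hU
  obtain ⟨B, hB, hbas⟩ := exists_seq
  set Good : ℕ → ℕ → Prop := fun n i => ∃ u ∈ U n, B i ⊆ u with hGood
  set U' : ℕ → ℕ → Set K := fun n j => ⋃ i ∈ (Finset.range j).filter (Good n), B i with hU'
  obtain ⟨f, hf⟩ := hX U' (by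
    intro n j
    exact isClopen_biUnion_finset fun i _ => hB i) (by
    intro n j j' hjj' x hx
    simp only [hU', Set.mem_iUnion, Finset.mem_filter, Finset.mem_range] at hx ⊢
    obtain ⟨i, ⟨hi, hg⟩, hxi⟩ := hx
    exact ⟨i, ⟨by omega, hg⟩, hxi⟩) (by
    intro x hx n
    obtain ⟨u, hu, hxu⟩ := (hU n).2 hx
    obtain ⟨i, hxi, hi⟩ := hbas x u ((hU n).1 u hu) hxu
    refine ⟨i + 1, ?_⟩
    simp only [hU', Set.mem_iUnion, Finset.mem_filter, Finset.mem_range]
    exact ⟨i, ⟨by omega, u, hu, hi⟩, hxi⟩)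
  have hc : ∀ n i, ∃ u : Set K, Good n i → u ∈ U n ∧ B i ⊆ u := by
    intro n i
    by_cases h : Good n i
    · obtain ⟨u, h1, h2⟩ := h
      exact ⟨u, fun _ => ⟨h1, h2⟩⟩
    · exact ⟨∅, fun h' => absurd h' h⟩
  choose c hc using hc
  refine ⟨fun n => ((Finset.range (f n)).filter (Good n)).image (c n), ?_, ?_⟩
  · intro n u hu
    rw [Finset.mem_coe, Finset.mem_image] at hu
    obtain ⟨i, hi, rfl⟩ := hu
    exact (hc n i (Finset.mem_filter.1 hi).2).1
  · intro x hx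
    filter_upwards [hf x hx] with n hn
    simp only [hU', Set.mem_iUnion] at hn
    obtain ⟨i, hi, hxi⟩ := hn
    refine ⟨c n i, ?_, (hc n i (Finset.mem_filter.1 hi).2).2 hxi⟩
    rw [Finset.mem_coe]
    exact Finset.mem_image_of_mem _ hi

end Pool.Agent.H748R3.HUR.HurH62
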